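import Mathlib
import Pool.Agent.Y327.Root

/-! # The field of symmetries: characters and units -/

open Filter Topology Matrix NumberField

set_option linter.unusedSectionVars false

namespace Pool.Agent.R750.FI

open H715R2 Pool.Agent.Y327

variable {d : ℕ}

/-- a complex root of the characteristic polynomial of a diagonalised matrix is an eigenvalue -/
lemma root_of_diag {h : Matrix (Fin d) (Fin d) ℝ} (hu : IsUnit h.det)
    {f : Module.End ℚ (Fin d → ℚ)} {c : Fin d → ℝ} (hf : h * kap f = diagonal c * h)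
    {t : ℂ} (ht : Polynomial.aeval t f.charpoly = 0) : ∃ l, t = ((c l : ℝ) : ℂ) := by
  classical
  set S : Matrix (Fin d) (Fin d) ℚ := LinearMap.toMatrix' f with hS
  have hkap : kap f = S.map (algebraMap ℚ ℝ) := by
    ext a b
    rw [kap_apply, Matrix.map_apply, hS, LinearMap.toMatrix'_apply]
    rfl
  have hp : f.charpoly = S.charpoly := by
    rw [hS, ← LinearMap.toMatrix_eq_toMatrix', LinearMap.charpoly_toMatrix]
  set Sc : Matrix (Fin d) (Fin d) ℂ := S.map (algebraMap ℚ ℂ) with hSc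
  have h1 : Sc.charpoly.eval t = 0 := by
    rw [hSc, Matrix.charpoly_map, Polynomial.eval_map_algebraMap, ← hp]
    exact ht
  rw [Matrix.eval_charpoly] at h1
  set hc : Matrix (Fin d) (Fin d) ℂ := h.map (Complex.ofRealHom : ℝ →+* ℂ) with hhc
  have hcdet : hc.det ≠ 0 := by
    have := (Complex.ofRealHom : ℝ →+* ℂ).map_det h
    rw [RingHom.mapMatrix_apply] at this
    rw [hhc, ← this]
    exact (map_ne_zero _).2 hu.ne_zero
  have hSk : Sc = (kap f).map (Complex.ofRealHom : ℝ →+* ℂ) := by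
    rw [hkap, hSc]
    ext a b
    simp
  have h2 : hc * Sc = diagonal (fun l => ((c l : ℝ) : ℂ)) * hc := by
    have h3 := congrArg (fun M : Matrix (Fin d) (Fin d) ℝ =>
      (Complex.ofRealHom : ℝ →+* ℂ).mapMatrix M) hf
    simp only [map_mul, RingHom.mapMatrix_apply] at h3
    rw [hSk, hhc, h3]
    congr 1
    ext a b
    by_cases hab : a = b
    · subst hab; simp
    · simp [diagonal_apply_ne _ hab]
  have h4 : hc * (Matrix.scalar (Fin d) t - Sc) =
      diagonal (fun l => t - ((c l : ℝ) : ℂ)) * hc := by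
    rw [Matrix.mul_sub, h2]
    have h5 : hc * Matrix.scalar (Fin d) t = diagonal (fun _ => t) * hc := by
      ext a b
      rw [Matrix.scalar_apply, mul_diagonal, diagonal_mul]
      ring
    rw [h5, ← Matrix.sub_mul]
    congr 1
    rw [diagonal_sub]
  have h6 := congrArg Matrix.det h4
  rw [det_mul, det_mul, h1, mul_zero, det_diagonal] at h6
  have h7 : ∏ l, (t - ((c l : ℝ) : ℂ)) = 0 := by
    rcases mul_eq_zero.1 h6.symm with h8 | h8
    · exact h8
    · exact absurd h8 hcdet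
  obtain ⟨l, -, hl⟩ := Finset.prod_eq_zero_iff.1 h7
  exact ⟨l, sub_eq_zero.1 hl⟩

theorem field_data (hd : 0 < d) {ν : ℝ} (hν : 0 < ν) {h : Matrix (Fin d) (Fin d) ℝ}
    (hnu : HasNu h ν) (hu : IsUnit h.det) :
    ∃ (K : Type) (_ : Field K) (_ : NumberField K) (ι : K →+* Module.End ℚ (Fin d → ℚ))
      (χ : Fin d → K →+* ℝ), (∀ f, Dg h f ↔ ∃ x, ι x = f) ∧
      (∀ x, h * kap (ι x) = diagonal (fun l => χ l x) * h) ∧
      ∀ τ : K →+* ℂ, ∃ l, τ = Complex.ofRealHom.comp (χ l) := by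
  classical
  have hfield := symA_isField hd hν hnu hu
  obtain ⟨K, iF, iN, ι, hι⟩ := exists_numberField (symA h hu) hfield
  have hDg : ∀ x, Dg h (ι x) := fun x => (hι _).2 ⟨x, rfl⟩
  have hmul : ∀ l, ∀ f, Dg h f → ∀ f', Dg h f' → (h * kap (f * f') * h⁻¹) l l =
      (h * kap f * h⁻¹) l l * (h * kap f' * h⁻¹) l l := by
    intro l f hf f' hf'
    rw [map_mul, conj_mul hu, diag_of_Dg hf, diag_of_Dg hf', diagonal_mul_diagonal,
      diagonal_apply_eq, diagonal_apply_eq, diagonal_apply_eq]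
  let χ : Fin d → K →+* ℝ := fun l =>
    { toFun := fun x => (h * kap (ι x) * h⁻¹) l l
      map_one' := by
        show (h * kap (ι 1) * h⁻¹) l l = 1
        rw [map_one, map_one, Matrix.mul_one, Matrix.mul_nonsing_inv _ hu, Matrix.one_apply_eq]
      map_mul' := fun x y => by
        show (h * kap (ι (x * y)) * h⁻¹) l l = _
        rw [map_mul, hmul l _ (hDg x) _ (hDg y)]
      map_zero' := by
        show (h * kap (ι 0) * h⁻¹) l l = 0
        rw [map_zero, map_zero, Matrix.mul_zero, Matrix.zero_mul, Matrix.zero_apply]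
      map_add' := fun x y => by
        show (h * kap (ι (x + y)) * h⁻¹) l l = _
        rw [map_add, map_add, Matrix.mul_add, Matrix.add_mul, Matrix.add_apply] }
  have hχ : ∀ x, h * kap (ι x) = diagonal (fun l => χ l x) * h := fun x =>
    (dg_iff hu).1 (hDg x)
  refine ⟨K, iF, iN, ι, χ, fun f => hι f, hχ, fun τ => ?_⟩
  have : Nonempty (Fin d) := ⟨⟨0, hd⟩⟩
  obtain ⟨z, hz⟩ := Field.exists_primitive_element ℚ K
  have hsplit : ∀ x : K, ((minpoly ℚ x).map (algebraMap ℚ ℂ)).Splits := fun x =>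
    IsAlgClosed.splits _
  have hz0 : Polynomial.aeval z (ι z).charpoly = 0 := by
    have h1 : Polynomial.aeval (ι z) (ι z).charpoly = 0 := LinearMap.aeval_self_charpoly _
    have h2 : Polynomial.aeval (ι.toRatAlgHom z) (ι z).charpoly =
        ι.toRatAlgHom (Polynomial.aeval z (ι z).charpoly) := Polynomial.aeval_algHom_apply _ _ _
    have h3 : ι (Polynomial.aeval z (ι z).charpoly) = 0 := by
      have h4 : ι.toRatAlgHom (Polynomial.aeval z (ι z).charpoly) = 0 := by
        rw [← h2]; exact h1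
      exact h4
    exact (map_eq_zero_iff ι ι.injective).1 h3
  have ht0 : Polynomial.aeval (τ z) (ι z).charpoly = 0 := by
    have h2 : Polynomial.aeval (τ.toRatAlgHom z) (ι z).charpoly =
        τ.toRatAlgHom (Polynomial.aeval z (ι z).charpoly) := Polynomial.aeval_algHom_apply _ _ _
    have h3 : Polynomial.aeval (τ.toRatAlgHom z) (ι z).charpoly = 0 := by
      rw [h2, hz0, map_zero]
    exact h3
  obtain ⟨l, hl⟩ := root_of_diag hu (hχ z) ht0
  refine ⟨l, ?_⟩
  have h1 := (Field.primitive_element_iff_algHom_eq_of_eval ℚ ℂ hsplit z τ.toRatAlgHom).1 hz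
    (Complex.ofRealHom.comp (χ l)).toRatAlgHom (by
      show τ z = ((χ l z : ℝ) : ℂ)
      exact hl)
  refine RingHom.ext fun x => ?_
  exact congrFun (congrArg DFunLike.coe h1) x

/-- units act through integer matrices -/
theorem unit_data (hd : 0 < d) {h : Matrix (Fin d) (Fin d) ℝ} (hu : IsUnit h.det)
    {K : Type} [Field K] [NumberField K] (ι : K →+* Module.End ℚ (Fin d → ℚ))
    (χ : Fin d → K →+* ℝ) (hχ : ∀ x, h * kap (ι x) = diagonal (fun l => χ l x) * h)
    (hsurj : ∀ τ : K →+* ℂ, ∃ l, τ = Complex.ofRealHom.comp (χ l)) :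
    (∀ τ : K →+* ℂ, ComplexEmbedding.IsReal τ) ∧
    ∃ N : ℕ, 0 < N ∧ Even N ∧ ∀ v : (𝓞 K)ˣ, ∃ γ : Matrix (Fin d) (Fin d) ℤ, IsUnit γ.det ∧
      h * zR γ = diagonal (fun l => Real.exp (lg N (Complex.ofRealHom.comp (χ l)) v)) * h ∧
      ∏ l, Real.exp (lg N (Complex.ofRealHom.comp (χ l)) v) = 1 := by
  have hreal : ∀ τ : K →+* ℂ, ComplexEmbedding.IsReal τ := by
    intro τ
    obtain ⟨l, rfl⟩ := hsurj τ
    rw [ComplexEmbedding.isReal_iff]
    ext x
    simp [ComplexEmbedding.conjugate_coe_eq]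
  refine ⟨hreal, ?_⟩
  obtain ⟨N, hN, hact⟩ := exists_pow_int ι
  refine ⟨2 * N, by omega, even_two_mul _, fun v => ?_⟩
  obtain ⟨γ, hγ, hγ2⟩ := hact (v ^ 2)
  have h1 : (((v ^ 2) ^ N : (𝓞 K)ˣ) : 𝓞 K) = ((v ^ (2 * N) : (𝓞 K)ˣ) : 𝓞 K) := by
    rw [pow_mul]
  have h2 : zR γ = kap (ι (uu (2 * N) v)) := by
    rw [← hγ2, uu, ← h1]
  have h3 : ∀ l, χ l (uu (2 * N) v) =
      Real.exp (lg (2 * N) (Complex.ofRealHom.comp (χ l)) v) := by
    intro l
    have h4 := pos_real hreal (2 * N) (even_two_mul _) (Complex.ofRealHom.comp (χ l)) v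
    rw [RingHom.comp_apply] at h4
    exact Complex.ofReal_injective h4
  have h5 : h * zR γ =
      diagonal (fun l => Real.exp (lg (2 * N) (Complex.ofRealHom.comp (χ l)) v)) * h := by
    rw [h2, hχ]
    simp only [h3]
  refine ⟨γ, hγ, h5, ?_⟩
  have h6 := congrArg (fun M : Matrix (Fin d) (Fin d) ℝ => |M.det|) h5
  simp only [det_mul, det_diagonal, det_zR, abs_mul] at h6
  rw [abs_det_of_isUnit hγ, mul_one, abs_of_pos (Finset.prod_pos fun l _ => Real.exp_pos _)] at h6
  have h7 : |h.det| ≠ 0 := abs_ne_zero.2 hu.ne_zero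
  have h8 : (∏ l, Real.exp (lg (2 * N) (Complex.ofRealHom.comp (χ l)) v)) * |h.det|
      = 1 * |h.det| := by rw [one_mul]; exact h6.symm
  exact mul_right_cancel₀ h7 h8

end Pool.Agent.R750.FI
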