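import Mathlib
import Pool.Agent.R750.FI.Field
import Pool.Agent.R750.SI.Many

/-! # Forms with a field of symmetries of degree at least three are isolated transversally -/

open Filter Topology Matrix NumberField

set_option linter.unusedSectionVars false

namespace Pool.Agent.R750.FI

open H715R2 Pool.Agent.Y327

variable {d : ℕ}

/-- conjugation by a unit -/
lemma hasNu_expand {g X : Matrix (Fin d) (Fin d) ℝ} {a : Fin d → ℝ}
    {γ : Matrix (Fin d) (Fin d) ℤ} {ν : ℝ}
    (ha0 : ∀ k, 0 < a k) (ha1 : ∏ k, a k = 1) (hγ : IsUnit γ.det)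
    (hag : diagonal a * g = g * zR γ) (hnu : HasNu ((1 + X) * g) ν) :
    HasNu ((1 + Matrix.of fun k l => a k * X k l * (a l)⁻¹) * g) ν := by
  intro m hm
  rw [← SI.expand_eq ha0 ha1 hγ hag m]
  refine hnu _ fun h0 => hm ?_
  have h1 : γ *ᵥ (γ⁻¹ *ᵥ m) = m := by
    rw [mulVec_mulVec, Matrix.mul_nonsing_inv _ hγ, one_mulVec]
  rw [← h1, h0, mulVec_zero]

lemma isClosed_hasNu (ν : ℝ) : IsClosed {x : Matrix (Fin d) (Fin d) ℝ | HasNu x ν} := by
  have h1 : {x : Matrix (Fin d) (Fin d) ℝ | HasNu x ν} =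
      ⋂ (m : Fin d → ℤ) (_ : m ≠ 0), {x | ν ≤ |FF x (iR m)|} := by
    ext x
    simp [HasNu]
  rw [h1]
  refine isClosed_iInter fun m => isClosed_iInter fun _ => ?_
  exact isClosed_le continuous_const (continuous_abs.comp (continuous_FF (iR m)))

/-- a single block above the diagonal, all of whose positive multiples are admissible, gives a
vanishing form -/
lemma no_ray {h Y : Matrix (Fin d) (Fin d) ℝ} (hu : IsUnit h.det) {ν : ℝ} (hν : 0 < ν) {i j : Fin d}
    (hij : i ≠ j) (hYii : Y i i = 0) (hYij : Y i j ≠ 0)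
    (hnu : ∀ ρ : ℝ, 0 < ρ → HasNu ((1 + ρ • Y) * h) ν) : False := by
  set U : Set (Fin d → ℝ) := {y | 0 < (h *ᵥ y) i ∧ (Y *ᵥ (h *ᵥ y)) i < 0} with hU
  have hc1 : Continuous fun y : Fin d → ℝ => (h *ᵥ y) i :=
    (continuous_apply i).comp (Continuous.matrix_mulVec continuous_const continuous_id)
  have hc2 : Continuous fun y : Fin d → ℝ => (Y *ᵥ (h *ᵥ y)) i :=
    (continuous_apply i).comp (Continuous.matrix_mulVec continuous_const
      (Continuous.matrix_mulVec continuous_const continuous_id))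
  have hUo : IsOpen U := (isOpen_lt continuous_const hc1).inter (isOpen_lt hc2 continuous_const)
  have hmem : h⁻¹ *ᵥ (Pi.single i 1 - Y i j • Pi.single j 1) ∈ U := by
    have h1 : h *ᵥ (h⁻¹ *ᵥ (Pi.single i (1 : ℝ) - Y i j • Pi.single j 1)) =
        Pi.single i 1 - Y i j • Pi.single j 1 := by
      rw [mulVec_mulVec, Matrix.mul_nonsing_inv _ hu, one_mulVec]
    refine ⟨?_, ?_⟩
    · rw [h1]
      simp [hij]
    · rw [h1, mulVec_sub, mulVec_smul, Matrix.mulVec_single_one, Matrix.mulVec_single_one]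
      simp only [Pi.sub_apply, Pi.smul_apply, smul_eq_mul, Matrix.col_apply, hYii]
      have := mul_self_pos.2 hYij
      linarith
  obtain ⟨m, k, hk, hm1, hm2⟩ := exists_int_point U hUo _ hmem
  have hkR : (0 : ℝ) < k := by exact_mod_cast hk
  have hsc : (fun j => (m j : ℝ) / k) = (k : ℝ)⁻¹ • iR m := by
    funext j
    simp [iR, div_eq_inv_mul]
  rw [hsc, mulVec_smul, Pi.smul_apply, smul_eq_mul] at hm1
  rw [hsc, mulVec_smul, mulVec_smul, Pi.smul_apply, smul_eq_mul] at hm2
  have hp : 0 < (h *ᵥ iR m) i := (mul_pos_iff_of_pos_left (inv_pos.2 hkR)).1 hm1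
  have hq : (Y *ᵥ (h *ᵥ iR m)) i < 0 := by
    by_contra hcon
    push Not at hcon
    exact absurd hm2 (not_lt.2 (mul_nonneg (inv_pos.2 hkR).le hcon))
  have hm0 : m ≠ 0 := by
    rintro rfl
    have : iR (0 : Fin d → ℤ) = 0 := by funext l; simp [iR]
    rw [this, mulVec_zero] at hp
    exact lt_irrefl _ hp
  set ρ : ℝ := - (h *ᵥ iR m) i / (Y *ᵥ (h *ᵥ iR m)) i with hρ
  have hρ0 : 0 < ρ := div_pos_of_neg_of_neg (neg_neg_of_pos hp) hq
  have h1 := hnu ρ hρ0 m hm0
  have h2 : FF ((1 + ρ • Y) * h) (iR m) = 0 := by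
    rw [FF_eq]
    refine Finset.prod_eq_zero (Finset.mem_univ i) ?_
    rw [← mulVec_mulVec, add_mulVec, one_mulVec, smul_mulVec, Pi.add_apply, Pi.smul_apply,
      smul_eq_mul, hρ, div_mul_cancel₀ _ hq.ne]
    ring
  rw [h2, abs_zero] at h1
  exact absurd h1 (not_le.2 hν)

theorem isolate (hd : 0 < d) {ν₀ : ℝ} (hν₀ : 0 < ν₀) {h : Matrix (Fin d) (Fin d) ℝ}
    (hnu₀ : HasNu h ν₀) (hu : IsUnit h.det) {f₀ : Module.End ℚ (Fin d → ℚ)} (hf₀ : Dg h f₀)
    {p q r : Fin d} (hpq : (h * kap f₀ * h⁻¹) p p ≠ (h * kap f₀ * h⁻¹) q q)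
    (hqr : (h * kap f₀ * h⁻¹) q q ≠ (h * kap f₀ * h⁻¹) r r)
    (hpr : (h * kap f₀ * h⁻¹) p p ≠ (h * kap f₀ * h⁻¹) r r) {ν : ℝ} (hν : 0 < ν) :
    ∀ᶠ x in 𝓝 h, HasNu x ν → ∀ f, Dg h f →
      x * kap f = diagonal (fun l => (h * kap f * h⁻¹) l l) * x := by
  classical
  obtain ⟨K, iF, iN, ι, χ, hDg, hχ, hsurj⟩ := field_data hd hν₀ hnu₀ hu
  obtain ⟨hreal, N, hN, hNe, hunit⟩ := unit_data hd hu ι χ hχ hsurj
  set τ : Fin d → K →+* ℂ := fun l => Complex.ofRealHom.comp (χ l) with hτ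
  have hχd : ∀ x l, (h * kap (ι x) * h⁻¹) l l = χ l x := by
    intro x l
    rw [hχ, Matrix.mul_assoc, Matrix.mul_nonsing_inv _ hu, Matrix.mul_one, diagonal_apply_eq]
  obtain ⟨x₀, rfl⟩ := (hDg f₀).1 hf₀
  rw [hχd, hχd] at hpq hqr hpr
  have hτne : ∀ k l, χ k x₀ ≠ χ l x₀ → τ k ≠ τ l := by
    intro k l hkl h0
    have h1 := congrArg (fun t : K →+* ℂ => t x₀) h0
    exact hkl (Complex.ofReal_injective h1)
  have hthird : ∀ i j : Fin d, ∃ τ₃ : K →+* ℂ, τ₃ ≠ τ i ∧ τ₃ ≠ τ j := by
    intro i j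
    by_contra hcon
    push Not at hcon
    have e1 := hτne p q hpq
    have e2 := hτne q r hqr
    have e3 := hτne p r hpr
    by_cases h1 : τ p = τ i
    · have h2 : τ q = τ j := hcon _ (fun h => e1 (h1.trans h.symm))
      have h3 : τ r = τ j := hcon _ (fun h => e3 (h1.trans h.symm))
      exact e2 (h2.trans h3.symm)
    · have h2 : τ p = τ j := hcon _ h1
      by_cases h3 : τ q = τ i
      · by_cases h4 : τ r = τ i
        · exact e2 (h3.trans h4.symm)
        · exact e3 (h2.trans (hcon _ h4).symm)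
      · exact e1 (h2.trans (hcon _ h3).symm)
  obtain ⟨R, hR, hnear⟩ := near_real hreal N hN
  -- a sequence of bad matrices
  by_contra hcon
  rw [Filter.not_eventually] at hcon
  have hclose : ∀ᶠ x in 𝓝 h, ∀ k l, |(x * h⁻¹ - 1) k l| < 1 := by
    refine Filter.eventually_all.2 fun k => Filter.eventually_all.2 fun l => ?_
    have hc : Continuous fun x : Matrix (Fin d) (Fin d) ℝ => |(x * h⁻¹ - 1) k l| := by
      have h1 : Continuous fun x : Matrix (Fin d) (Fin d) ℝ => x * h⁻¹ - 1 :=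
        (continuous_id.matrix_mul continuous_const).sub continuous_const
      exact ((continuous_apply_apply k l).comp h1).abs
    have h0 : |(h * h⁻¹ - 1) k l| < 1 := by
      rw [Matrix.mul_nonsing_inv _ hu, sub_self, Matrix.zero_apply, abs_zero]
      exact one_pos
    exact (hc.tendsto h).eventually (gt_mem_nhds h0)
  obtain ⟨xs, hxs, hbad⟩ := Filter.exists_seq_forall_of_frequently (hcon.and_eventually hclose)
  set X : ℕ → Matrix (Fin d) (Fin d) ℝ := fun n => xs n * h⁻¹ - 1 with hX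
  have hXh : ∀ n, (1 + X n) * h = xs n := by
    intro n
    simp only [hX]
    rw [add_sub_cancel, Matrix.mul_assoc, Matrix.nonsing_inv_mul _ hu, Matrix.mul_one]
  have hXlim : ∀ k l, Tendsto (fun n => X n k l) atTop (𝓝 0) := by
    intro k l
    have hc : Continuous fun x : Matrix (Fin d) (Fin d) ℝ => (x * h⁻¹ - 1) k l := by
      have h1 : Continuous fun x : Matrix (Fin d) (Fin d) ℝ => x * h⁻¹ - 1 :=
        (continuous_id.matrix_mul continuous_const).sub continuous_const
      exact (continuous_apply_apply k l).comp h1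
    have h1 := (hc.tendsto h).comp hxs
    rw [Matrix.mul_nonsing_inv _ hu, sub_self, Matrix.zero_apply] at h1
    exact h1
  have hX1 : ∀ n k l, |X n k l| < 1 := fun n k l => (hbad n).2 k l
  have hXnu : ∀ n, HasNu ((1 + X n) * h) ν := by
    intro n
    rw [hXh]
    have h1 := (hbad n).1
    push Not at h1
    exact h1.1
  -- entries outside the blocks
  have hne : ∀ n, ∃ p : Fin d × Fin d, τ p.1 ≠ τ p.2 ∧ X n p.1 p.2 ≠ 0 := by
    intro n
    by_contra hcon2
    push Not at hcon2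
    have h1 := (hbad n).1
    push Not at h1
    obtain ⟨-, f, hf, hne⟩ := h1
    apply hne
    obtain ⟨y, rfl⟩ := (hDg f).1 hf
    simp only [hχd]
    rw [← hXh]
    have h2 : (1 + X n) * diagonal (fun l => χ l y) = diagonal (fun l => χ l y) * (1 + X n) := by
      ext k l
      rw [mul_diagonal, diagonal_mul]
      by_cases hkl : τ k = τ l
      · have h3 : χ k y = χ l y :=
          Complex.ofReal_injective (congrArg (fun t : K →+* ℂ => t y) hkl)
        rw [h3, mul_comm]
      · have h3 := hcon2 (k, l) hkl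
        simp only at h3
        have h4 : k ≠ l := fun h => hkl (by rw [h])
        rw [Matrix.add_apply, h3, Matrix.one_apply_ne h4, add_zero, zero_mul, mul_zero]
    rw [Matrix.mul_assoc, hχ, ← Matrix.mul_assoc, h2, Matrix.mul_assoc]
  have hmax : ∀ n, ∃ p : Fin d × Fin d, τ p.1 ≠ τ p.2 ∧ X n p.1 p.2 ≠ 0 ∧
      ∀ k l, τ k ≠ τ l → |X n k l| ≤ |X n p.1 p.2| := by
    intro n
    obtain ⟨p₀, hp₀, hp₀'⟩ := hne n
    obtain ⟨p, hpP, hpm⟩ := Finset.exists_max_image
      (Finset.univ.filter (fun p : Fin d × Fin d => τ p.1 ≠ τ p.2))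
      (fun p => |X n p.1 p.2|) ⟨p₀, Finset.mem_filter.2 ⟨Finset.mem_univ _, hp₀⟩⟩
    have h1 := (Finset.mem_filter.1 hpP).2
    have h2 := hpm p₀ (Finset.mem_filter.2 ⟨Finset.mem_univ _, hp₀⟩)
    refine ⟨p, h1, fun h0 => hp₀' ?_, fun k l hkl =>
      hpm (k, l) (Finset.mem_filter.2 ⟨Finset.mem_univ _, hkl⟩)⟩
    rw [h0, abs_zero] at h2
    exact abs_eq_zero.1 (le_antisymm h2 (abs_nonneg _))
  choose P hP1 hP2 hP3 using hmax
  set δ : ℕ → ℝ := fun n => |X n (P n).1 (P n).2| with hδ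
  have hδ0 : ∀ n, 0 < δ n := fun n => abs_pos.2 (hP2 n)
  have hδ1 : ∀ n, δ n < 1 := fun n => hX1 n _ _
  set Λ : ℕ → ℝ := fun n => - Real.log (δ n) with hΛ
  have hδΛ : ∀ n, δ n = Real.exp (-Λ n) := by
    intro n
    simp only [hΛ]
    rw [neg_neg, Real.exp_log (hδ0 n)]
  have hΛ0 : ∀ n, 0 ≤ Λ n := by
    intro n
    simp only [hΛ]
    have := Real.log_nonpos (hδ0 n).le (hδ1 n).le
    linarith
  have hδlim : Tendsto δ atTop (𝓝 0) := by
    have h1 : Tendsto (fun n => ∑ k, ∑ l, |X n k l|) atTop (𝓝 0) := by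
      have h2 : Tendsto (fun n => ∑ k, ∑ l, |X n k l|) atTop
          (𝓝 (∑ _k : Fin d, ∑ _l : Fin d, |(0 : ℝ)|)) :=
        tendsto_finsetSum _ fun k _ => tendsto_finsetSum _ fun l _ => (hXlim k l).abs
      simpa using h2
    refine squeeze_zero (fun n => (hδ0 n).le) (fun n => ?_) h1
    have h2 : |X n (P n).1 (P n).2| ≤ ∑ l, |X n (P n).1 l| :=
      Finset.single_le_sum (f := fun l => |X n (P n).1 l|) (fun _ _ => abs_nonneg _)
        (Finset.mem_univ _)
    have h3 : ∑ l, |X n (P n).1 l| ≤ ∑ k, ∑ l, |X n k l| :=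
      Finset.single_le_sum (f := fun k => ∑ l, |X n k l|)
        (fun _ _ => Finset.sum_nonneg fun _ _ => abs_nonneg _) (Finset.mem_univ _)
    exact h2.trans h3
  -- the units
  set Q : ℕ → (K →+* ℂ) → ℝ := fun n t =>
    (if t = τ (P n).1 then Λ n / 2 else 0) + (if t = τ (P n).2 then -(Λ n / 2) else 0) with hQ
  have hQsum : ∀ n, ∑ t, Q n t = 0 := by
    intro n
    simp only [hQ]
    rw [Finset.sum_add_distrib, Finset.sum_ite_eq', Finset.sum_ite_eq', if_pos (Finset.mem_univ _),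
      if_pos (Finset.mem_univ _), add_neg_cancel]
  choose v hv using fun n => hnear (Q n) (hQsum n)
  choose γ hγ hγh hprod using hunit
  set a : ℕ → Fin d → ℝ := fun n l => Real.exp (lg N (τ l) (v n)) with ha
  set Y : ℕ → Matrix (Fin d) (Fin d) ℝ := fun n =>
    Matrix.of fun k l => a n k * X n k l * (a n l)⁻¹ with hY
  have hYnu : ∀ n, HasNu ((1 + Y n) * h) ν := fun n =>
    hasNu_expand (fun k => Real.exp_pos _) (hprod (v n)) (hγ (v n)) (hγh (v n)).symm (hXnu n)
  have hYabs : ∀ n k l, |Y n k l| = Real.exp (lg N (τ k) (v n) - lg N (τ l) (v n)) * |X n k l| := by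
    intro n k l
    simp only [hY, ha, Matrix.of_apply]
    rw [abs_mul, abs_mul, abs_of_pos (Real.exp_pos _), abs_of_pos (inv_pos.2 (Real.exp_pos _)),
      Real.exp_sub, div_eq_mul_inv]
    ring
  have hYsame : ∀ n k l, τ k = τ l → |Y n k l| = |X n k l| := by
    intro n k l hkl
    rw [hYabs, hkl, sub_self, Real.exp_zero, one_mul]
  have hQle : ∀ n k l, τ k ≠ τ l → Q n (τ k) - Q n (τ l) ≤ Λ n := by
    intro n k l hkl
    have h0 := hΛ0 n
    simp only [hQ]
    split_ifs <;> first | linarith | (exfalso; apply hkl; simp_all)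
  have hQle2 : ∀ n k l, τ k ≠ τ l → ¬ (τ k = τ (P n).1 ∧ τ l = τ (P n).2) →
      Q n (τ k) - Q n (τ l) ≤ Λ n / 2 := by
    intro n k l hkl hno
    have h0 := hΛ0 n
    have h12 := hP1 n
    simp only [hQ]
    split_ifs <;> first | linarith | (exfalso; simp_all)
  have hYle : ∀ n k l, τ k ≠ τ l → |Y n k l| ≤ Real.exp (2 * R) := by
    intro n k l hkl
    rw [hYabs]
    calc Real.exp (lg N (τ k) (v n) - lg N (τ l) (v n)) * |X n k l|
        ≤ Real.exp (2 * R + Λ n) * Real.exp (-Λ n) := by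
          refine mul_le_mul (Real.exp_le_exp.2 ?_) ((hP3 n k l hkl).trans (hδΛ n).le)
            (abs_nonneg _) (Real.exp_pos _).le
          have h1 := (abs_le.1 (hv n (τ k))).2
          have h2 := (abs_le.1 (hv n (τ l))).1
          have h3 := hQle n k l hkl
          linarith
      _ = Real.exp (2 * R) := by rw [← Real.exp_add]; congr 1; ring
  have hYle2 : ∀ n k l, τ k ≠ τ l → ¬ (τ k = τ (P n).1 ∧ τ l = τ (P n).2) →
      |Y n k l| ≤ Real.exp (2 * R) * Real.sqrt (δ n) := by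
    intro n k l hkl hno
    rw [hYabs]
    have hsq : Real.sqrt (δ n) = Real.exp (-Λ n / 2) := by
      rw [hδΛ n, Real.sqrt_eq_rpow, ← Real.exp_mul]
      congr 1
      ring
    calc Real.exp (lg N (τ k) (v n) - lg N (τ l) (v n)) * |X n k l|
        ≤ Real.exp (2 * R + Λ n / 2) * Real.exp (-Λ n) := by
          refine mul_le_mul (Real.exp_le_exp.2 ?_) ((hP3 n k l hkl).trans (hδΛ n).le)
            (abs_nonneg _) (Real.exp_pos _).le
          have h1 := (abs_le.1 (hv n (τ k))).2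
          have h2 := (abs_le.1 (hv n (τ l))).1
          have h3 := hQle2 n k l hkl hno
          linarith
      _ = Real.exp (2 * R) * Real.sqrt (δ n) := by
          rw [hsq, ← Real.exp_add, ← Real.exp_add]; congr 1; ring
  have hYge : ∀ n, Real.exp (-(2 * R)) ≤ |Y n (P n).1 (P n).2| := by
    intro n
    rw [hYabs]
    have hq1 : Q n (τ (P n).1) - Q n (τ (P n).2) = Λ n := by
      simp only [hQ]
      rw [if_neg (hP1 n), if_neg (hP1 n).symm]
      simp only [if_true]
      ring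
    calc Real.exp (-(2 * R)) = Real.exp (-(2 * R) + Λ n) * Real.exp (-Λ n) := by
          rw [← Real.exp_add]; congr 1; ring
      _ ≤ _ := by
          refine mul_le_mul (Real.exp_le_exp.2 ?_) (hδΛ n).ge (Real.exp_pos _).le
            (Real.exp_pos _).le
          have h1 := (abs_le.1 (hv n (τ (P n).1))).1
          have h2 := (abs_le.1 (hv n (τ (P n).2))).2
          linarith
  -- a limit
  have hcpt : IsCompact ((Set.univ : Set (Fin d × Fin d)) ×ˢ
      {m : Matrix (Fin d) (Fin d) ℝ | ∀ i j, |m i j| ≤ 1 + Real.exp (2 * R)}) :=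
    isCompact_univ.prod (isCompact_box _)
  have hmem : ∀ n, (P n, Y n) ∈ ((Set.univ : Set (Fin d × Fin d)) ×ˢ
      {m : Matrix (Fin d) (Fin d) ℝ | ∀ i j, |m i j| ≤ 1 + Real.exp (2 * R)}) := by
    intro n
    refine ⟨Set.mem_univ _, fun k l => ?_⟩
    show |Y n k l| ≤ _
    have h0 := Real.exp_pos (2 * R)
    by_cases hkl : τ k = τ l
    · rw [hYsame n k l hkl]
      have := hX1 n k l
      linarith
    · have := hYle n k l hkl
      linarith
  obtain ⟨⟨⟨i, j⟩, Y₀⟩, -, φ, hφ, hlim⟩ := hcpt.tendsto_subseq hmem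
  have hlim1 : Tendsto (fun n => P (φ n)) atTop (𝓝 (i, j)) :=
    (continuous_fst.tendsto _).comp hlim
  have hlim2 : Tendsto (fun n => Y (φ n)) atTop (𝓝 Y₀) :=
    (continuous_snd.tendsto _).comp hlim
  have hev : ∀ᶠ n in atTop, P (φ n) = (i, j) := by
    rw [nhds_discrete, tendsto_pure] at hlim1
    exact hlim1
  have hent : ∀ k l, Tendsto (fun n => Y (φ n) k l) atTop (𝓝 (Y₀ k l)) := fun k l =>
    ((continuous_apply_apply k l).tendsto Y₀).comp hlim2
  have hτij : τ i ≠ τ j := by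
    obtain ⟨n, hn⟩ := hev.exists
    have := hP1 (φ n)
    rw [hn] at this
    exact this
  have hij : i ≠ j := fun h0 => hτij (by rw [h0])
  have hY0ij : Y₀ i j ≠ 0 := by
    have h2 : Real.exp (-(2 * R)) ≤ |Y₀ i j| := by
      refine ge_of_tendsto ((hent i j).abs) ?_
      filter_upwards [hev] with n hn
      have := hYge (φ n)
      rwa [hn] at this
    intro h0
    rw [h0, abs_zero] at h2
    exact absurd h2 (not_le.2 (Real.exp_pos _))
  have hY0 : ∀ k l, ¬ (τ k = τ i ∧ τ l = τ j) → Y₀ k l = 0 := by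
    intro k l hkl
    refine tendsto_nhds_unique (hent k l) ?_
    by_cases hs : τ k = τ l
    · have h1 := ((hXlim k l).comp hφ.tendsto_atTop).abs
      rw [abs_zero] at h1
      refine squeeze_zero_norm (fun n => ?_) h1
      rw [Real.norm_eq_abs, hYsame _ k l hs]
      exact le_rfl
    · have h1 : Tendsto (fun n => Real.exp (2 * R) * Real.sqrt (δ (φ n))) atTop (𝓝 0) := by
        have h2 := ((Real.continuous_sqrt.tendsto 0).comp (hδlim.comp hφ.tendsto_atTop)).const_mul
          (Real.exp (2 * R))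
        rw [Real.sqrt_zero, mul_zero] at h2
        exact h2
      refine squeeze_zero_norm' ?_ h1
      filter_upwards [hev] with n hn
      rw [Real.norm_eq_abs]
      refine hYle2 (φ n) k l hs ?_
      rw [hn]
      exact hkl
  have hY0nu : HasNu ((1 + Y₀) * h) ν := by
    have hc : Continuous fun Z : Matrix (Fin d) (Fin d) ℝ => (1 + Z) * h :=
      (continuous_const.add continuous_id).matrix_mul continuous_const
    exact (isClosed_hasNu ν).mem_of_tendsto ((hc.tendsto Y₀).comp hlim2)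
      (Eventually.of_forall fun n => hYnu (φ n))
  -- all positive multiples
  obtain ⟨τ₃, h31, h32⟩ := hthird i j
  have hdense := psi_dense hreal N hN hNe (τ i) (τ j) τ₃ hτij.symm h31 h32
  have hclosed : IsClosed {s : ℝ | HasNu ((1 + Real.exp s • Y₀) * h) ν} := by
    have hc : Continuous fun s : ℝ => (1 + Real.exp s • Y₀) * h :=
      (continuous_const.add (Real.continuous_exp.smul continuous_const)).matrix_mul
        continuous_const
    exact (isClosed_hasNu ν).preimage hc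
  have hsub : ((psi N (τ i) (τ j)).range : Set ℝ) ⊆
      {s : ℝ | HasNu ((1 + Real.exp s • Y₀) * h) ν} := by
    rintro _ ⟨w, rfl⟩
    set u : (𝓞 K)ˣ := w.toMul with hu'
    have hps : psi N (τ i) (τ j) w = lg N (τ i) u - lg N (τ j) u := rfl
    rw [hps]
    have h1 := hasNu_expand (fun k => Real.exp_pos _) (hprod u) (hγ u) (hγh u).symm hY0nu
    have h2 : (Matrix.of fun k l => Real.exp (lg N (Complex.ofRealHom.comp (χ k)) u) * Y₀ k l *
        (Real.exp (lg N (Complex.ofRealHom.comp (χ l)) u))⁻¹ : Matrix (Fin d) (Fin d) ℝ) =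
        Real.exp (lg N (τ i) u - lg N (τ j) u) • Y₀ := by
      ext k l
      rw [Matrix.of_apply, Matrix.smul_apply, smul_eq_mul]
      by_cases hkl : τ k = τ i ∧ τ l = τ j
      · have e1 : Complex.ofRealHom.comp (χ k) = τ i := hkl.1
        have e2 : Complex.ofRealHom.comp (χ l) = τ j := hkl.2
        rw [e1, e2, Real.exp_sub, div_eq_mul_inv]
        ring
      · rw [hY0 k l hkl, mul_zero, zero_mul, mul_zero]
    rw [h2] at h1
    exact h1
  have hall : ∀ s : ℝ, HasNu ((1 + Real.exp s • Y₀) * h) ν := by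
    intro s
    have h1 : s ∈ closure ((psi N (τ i) (τ j)).range : Set ℝ) := hdense s
    exact (hclosed.closure_subset_iff.2 hsub) h1
  refine no_ray hu hν hij (hY0 i i fun h0 => hτij h0.2) hY0ij fun ρ hρ => ?_
  have h1 := hall (Real.log ρ)
  rwa [Real.exp_log hρ] at h1

end Pool.Agent.R750.FI
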